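import Pool.Agent.H73.CBD.Stmts

/-! Board cbd, row TRI (helper86): the product of three consecutive values of `tau`. -/

set_option autoImplicit false

open Set Filter Topology

namespace Pool.CBD

theorem tri_smul (h2 : ALHStmt) (t : ℝ) (z : V) : f (t • z) = (t ^ 2 : ℝ) • f z := by
  have e : ∀ (s : ℝ) (w : V), s • w = (s : ℂ) • w := by
    intro s w
    ext i
    simp
  rw [e, e, h2.1]
  push_cast
  rfl

theorem tri_lt (h1 : ALGStmt) (h3 : TAUStmt) (h4 : NCHStmt) (z : V) (hz : z ≠ 0) :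
    ‖tau z‖ * ‖tau (f z)‖ * ‖tau (f (f z))‖ < 8 := by
  obtain ⟨-, -, -, -, -, -, -, hf, -⟩ := h1
  have hz1 := hf z hz
  have hz2 := hf _ hz1
  obtain ⟨a1, a2, -⟩ := h3 z hz
  obtain ⟨b1, b2, -⟩ := h3 _ hz1
  obtain ⟨c1, c2, -⟩ := h3 _ hz2
  have n1 : 0 ≤ ‖tau z‖ := norm_nonneg _
  have n2 : 0 ≤ ‖tau (f z)‖ := norm_nonneg _
  have n3 : 0 ≤ ‖tau (f (f z))‖ := norm_nonneg _
  rcases a1.lt_or_eq with ha | ha
  · have h5 : ‖tau z‖ * ‖tau (f z)‖ ≤ ‖tau z‖ * 2 := mul_le_mul_of_nonneg_left b1 n1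
    have h6 : ‖tau z‖ * ‖tau (f z)‖ * ‖tau (f (f z))‖ ≤ ‖tau z‖ * ‖tau (f z)‖ * 2 :=
      mul_le_mul_of_nonneg_left c1 (mul_nonneg n1 n2)
    linarith
  rcases b1.lt_or_eq with hb | hb
  · have h6 : ‖tau z‖ * ‖tau (f z)‖ * ‖tau (f (f z))‖ ≤ ‖tau z‖ * ‖tau (f z)‖ * 2 :=
      mul_le_mul_of_nonneg_left c1 (mul_nonneg n1 n2)
    rw [ha] at h6 ⊢
    linarith
  rcases c1.lt_or_eq with hc | hc
  · rw [ha, hb]
    linarith
  exact absurd (c2 hc) (h4 z hz (a2 ha) (b2 hb))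

theorem TRI_thm (h1 : ALGStmt) (h2 : ALHStmt) (h3 : TAUStmt) (h4 : NCHStmt) (h5 : CTNStmt) :
    TRIStmt := by
  have hlt := tri_lt h1 h3 h4
  have hsm := tri_smul h2
  obtain ⟨-, -, -, -, hd, -, -, hf, -⟩ := h1
  have hfc : Continuous f := hd.continuous
  have htau : ContinuousOn (fun z => ‖tau z‖) {z : V | z ≠ 0} := h5.1.norm
  have c2 : ContinuousOn (fun z => ‖tau (f z)‖) {z : V | z ≠ 0} :=
    htau.comp hfc.continuousOn fun z hz => hf z hz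
  have c3 : ContinuousOn (fun z => ‖tau (f (f z))‖) {z : V | z ≠ 0} :=
    c2.comp hfc.continuousOn fun z hz => hf z hz
  have hg : ContinuousOn (fun z => ‖tau z‖ * ‖tau (f z)‖ * ‖tau (f (f z))‖) {z : V | z ≠ 0} :=
    (htau.mul c2).mul c3
  have hsub : Metric.sphere (0 : V) 1 ⊆ {z : V | z ≠ 0} := by
    intro z hz h0
    rw [h0] at hz
    simp at hz
  have hne : (Metric.sphere (0 : V) 1).Nonempty := by
    refine ⟨fun _ => 1, ?_⟩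
    rw [mem_sphere_zero_iff_norm]
    exact (pi_norm_const (1 : ℂ)).trans norm_one
  obtain ⟨z0, hz0, hmax⟩ := (isCompact_sphere (0 : V) 1).exists_isMaxOn hne (hg.mono hsub)
  refine ⟨max (‖tau z0‖ * ‖tau (f z0)‖ * ‖tau (f (f z0))‖) 1,
    lt_max_of_lt_right one_pos, max_lt (hlt z0 (hsub hz0)) (by norm_num), ?_⟩
  intro z hz
  have hn : 0 < ‖z‖ := norm_pos_iff.2 hz
  have ht : 0 < ‖z‖⁻¹ := inv_pos.2 hn
  have hw : ‖z‖⁻¹ • z ∈ Metric.sphere (0 : V) 1 := by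
    rw [mem_sphere_zero_iff_norm, norm_smul, norm_inv, norm_norm, inv_mul_cancel₀ hn.ne']
  have h6 := hmax hw
  change ‖tau (‖z‖⁻¹ • z)‖ * ‖tau (f (‖z‖⁻¹ • z))‖ * ‖tau (f (f (‖z‖⁻¹ • z)))‖ ≤ _ at h6
  have e1 : tau (‖z‖⁻¹ • z) = tau z := (h2.2.2.2.2 _ z ht).1
  have e2 : tau (f (‖z‖⁻¹ • z)) = tau (f z) := by
    rw [hsm]
    exact (h2.2.2.2.2 _ _ (by positivity)).1
  have e3 : tau (f (f (‖z‖⁻¹ • z))) = tau (f (f z)) := by
    rw [hsm, hsm]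
    exact (h2.2.2.2.2 _ _ (by positivity)).1
  rw [e1, e2, e3] at h6
  exact h6.trans (le_max_left _ _)

end Pool.CBD
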